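import Pool.Agent.W669.HD.Stm3

/-!
# Three pieces: the explicit sum in dimension six
-/

set_option autoImplicit false

namespace Pool.Agent.W410.HD.EX

open Finset Pool.Agent.W666.GB Pool.Agent.W669.HD

/-- index type -/
abbrev J := Fin 3 × Bool

/-- code of an index -/
def cd (x : J) : ℤ := 2 * ((x.1 : ℕ) : ℤ) + (if x.2 then 1 else 0)

/-- Vandermonde product of six integers -/
def VZ (a b c d e f : ℤ) : ℤ :=
  (b - a) * (c - a) * (d - a) * (e - a) * (f - a) * ((c - b) * (d - b) * (e - b) * (f - b)) *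
    ((d - c) * (e - c) * (f - c)) * ((e - d) * (f - d)) * (f - e)

theorem vand (u : Fin 6 → ℤ) :
    (Matrix.vandermonde u).det = VZ (u 0) (u 1) (u 2) (u 3) (u 4) (u 5) := by
  rw [Matrix.det_vandermonde]
  have h0 : Finset.Ioi (0 : Fin 6) = {1, 2, 3, 4, 5} := by decide
  have h1 : Finset.Ioi (1 : Fin 6) = {2, 3, 4, 5} := by decide
  have h2 : Finset.Ioi (2 : Fin 6) = {3, 4, 5} := by decide
  have h3 : Finset.Ioi (3 : Fin 6) = {4, 5} := by decide
  have h4 : Finset.Ioi (4 : Fin 6) = {5} := by decide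
  have h5 : Finset.Ioi (5 : Fin 6) = ∅ := by decide
  rw [Fin.prod_univ_six, h0, h1, h2, h3, h4, h5]
  rw [Finset.prod_insert (by decide), Finset.prod_insert (by decide),
    Finset.prod_insert (by decide), Finset.prod_insert (by decide), Finset.prod_singleton,
    Finset.prod_insert (by decide), Finset.prod_insert (by decide),
    Finset.prod_insert (by decide), Finset.prod_singleton,
    Finset.prod_insert (by decide), Finset.prod_insert (by decide), Finset.prod_singleton,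
    Finset.prod_insert (by decide), Finset.prod_singleton, Finset.prod_singleton,
    Finset.prod_empty]
  unfold VZ
  ring

/-- enumeration of the indices -/
def en : Fin 6 ≃ J where
  toFun k := ![(0, false), (0, true), (1, false), (1, true), (2, false), (2, true)] k
  invFun x := if x.2 then ![1, 3, 5] x.1 else ![0, 2, 4] x.1
  left_inv := by decide
  right_inv := by decide

/-- the sign sum of a function -/
noncomputable def ep (t : J → J) : ℝ := ∑ σ : Equiv.Perm J, sn σ * (if ⇑σ = t then 1 else 0)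

/-- the Vandermonde product of a function -/
def VT (t : J → J) : ℤ :=
  VZ (cd (t (0, false))) (cd (t (0, true))) (cd (t (1, false))) (cd (t (1, true)))
    (cd (t (2, false))) (cd (t (2, true)))

theorem VT_det (t : J → J) : (Matrix.vandermonde fun k => cd (t (en k))).det = VT t :=
  vand _

theorem VT_perm (σ : Equiv.Perm J) : VT ⇑σ = (Equiv.Perm.sign σ : ℤ) * 34560 := by
  obtain ⟨W, hW⟩ : ∃ W : Matrix J J ℤ, W = Matrix.of fun x y => cd x ^ ((en.symm y : Fin 6) : ℕ) :=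
    ⟨_, rfl⟩
  have h1 : ∀ ρ : Equiv.Perm J, ((W.submatrix ρ id).submatrix en en) =
      Matrix.vandermonde fun k => cd (ρ (en k)) := by
    intro ρ
    ext i j
    rw [hW]
    simp [Matrix.vandermonde]
  have h2 := Matrix.det_permute σ W
  have h3 : ∀ ρ : Equiv.Perm J, (W.submatrix ρ id).det = VT ⇑ρ := by
    intro ρ
    rw [← VT_det, ← h1 ρ, Matrix.det_submatrix_equiv_self]
  have h4 : W.det = 34560 := by
    have h5 := h3 1
    have h6 : W.submatrix ((1 : Equiv.Perm J)) id = W := by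
      ext i j
      rfl
    rw [h6] at h5
    rw [h5]
    decide
  rw [h3, h4] at h2
  exact h2

theorem ep_eq (t : J → J) : ep t * 34560 = ((VT t : ℤ) : ℝ) := by
  by_cases h : ∃ σ : Equiv.Perm J, ⇑σ = t
  · obtain ⟨ρ, rfl⟩ := h
    rw [VT_perm, ep, Finset.sum_eq_single ρ]
    · rw [if_pos rfl, mul_one, sn]
      push_cast
      rfl
    · intro σ _ hne
      rw [if_neg (fun h => hne (DFunLike.coe_injective h)), mul_zero]
    · intro h
      exact absurd (mem_univ _) h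
  · have h1 : ep t = 0 := by
      rw [ep]
      refine Finset.sum_eq_zero fun σ _ => ?_
      rw [if_neg (fun h' => h ⟨σ, h'⟩), mul_zero]
    have h2 : VT t = 0 := by
      rw [← VT_det, Matrix.det_vandermonde_eq_zero_iff]
      have h3 : ¬ Function.Injective t := by
        intro hi
        exact h ⟨Equiv.ofBijective t (Finite.injective_iff_bijective.1 hi), rfl⟩
      rw [Function.not_injective_iff] at h3
      obtain ⟨x, y, hxy, hne⟩ := h3
      refine ⟨en.symm x, en.symm y, ?_, fun h' => hne (en.symm.injective h')⟩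
      simp only [Equiv.apply_symm_apply, hxy]
    rw [h1, h2]
    simp

/-- the exchange of the two indices of a pair -/
def sb (b : Fin 3) : Equiv.Perm J := Equiv.swap (b, false) (b, true)

theorem sn_sb (b : Fin 3) : sn (sb b) = -1 := by
  rw [sn, sb, Equiv.Perm.sign_swap (by simp)]
  simp

theorem flip (b : Fin 3) (X : Equiv.Perm J → ℝ) :
    ∑ σ, sn σ * X (σ * sb b) = - ∑ σ, sn σ * X σ := by
  rw [← Equiv.sum_comp (Equiv.mulRight (sb b)) fun σ => sn σ * X σ, ← Finset.sum_neg_distrib]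
  refine Finset.sum_congr rfl fun σ _ => ?_
  simp only [Equiv.coe_mulRight]
  rw [sn_mul, sn_sb]
  ring

theorem two (b : Fin 3) (D A : Equiv.Perm J → ℝ) (hA : ∀ σ, A (σ * sb b) = A σ) :
    ∑ σ, sn σ * ((D σ - D (σ * sb b)) * A σ) = 2 * ∑ σ, sn σ * (D σ * A σ) := by
  have h := flip b fun σ => D σ * A σ
  simp only [hA] at h
  have h2 : ∑ σ, sn σ * ((D σ - D (σ * sb b)) * A σ) =
      ∑ σ, sn σ * (D σ * A σ) - ∑ σ, sn σ * (D (σ * sb b) * A σ) := by
    rw [← Finset.sum_sub_distrib]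
    exact Finset.sum_congr rfl fun σ _ => by ring
  rw [h2, h]
  ring

/-- indicator of a pair -/
def de (p : J × J) (i j : J) : ℝ := if i = p.1 ∧ j = p.2 then 1 else 0

/-- elementary skew form -/
def ph (p : J × J) (i j : J) : ℝ := de p i j - de p j i

/-- the function belonging to three pairs -/
def tt (p q r : J × J) (x : J) : J :=
  if x.2 then (if x.1 = 0 then p.2 else if x.1 = 1 then q.2 else r.2) else
    (if x.1 = 0 then p.1 else if x.1 = 1 then q.1 else r.1)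

theorem sb_same (b : Fin 3) (σ : Equiv.Perm J) :
    (σ * sb b) (b, false) = σ (b, true) ∧ (σ * sb b) (b, true) = σ (b, false) := by
  constructor
  · rw [Equiv.Perm.mul_apply, sb, Equiv.swap_apply_left]
  · rw [Equiv.Perm.mul_apply, sb, Equiv.swap_apply_right]

theorem sb_other (b b' : Fin 3) (h : b' ≠ b) (σ : Equiv.Perm J) (e : Bool) :
    (σ * sb b) (b', e) = σ (b', e) := by
  rw [Equiv.Perm.mul_apply, sb, Equiv.swap_apply_of_ne_of_ne]
  · intro h'
    exact h (Prod.ext_iff.1 h').1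
  · intro h'
    exact h (Prod.ext_iff.1 h').1

theorem sum_ph (p q r : J × J) :
    ∑ σ : Equiv.Perm J, sn σ * (ph p (σ (0, false)) (σ (0, true)) *
      (ph q (σ (1, false)) (σ (1, true)) * ph r (σ (2, false)) (σ (2, true)))) =
      8 * ep (tt p q r) := by
  have h0 := two 0 (fun σ => de p (σ (0, false)) (σ (0, true)))
    (fun σ => ph q (σ (1, false)) (σ (1, true)) * ph r (σ (2, false)) (σ (2, true)))
    (fun σ => by
      simp only [sb_other 0 1 (by decide), sb_other 0 2 (by decide)])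
  simp only [(sb_same 0 _).1, (sb_same 0 _).2] at h0
  have h1 := two 1 (fun σ => de q (σ (1, false)) (σ (1, true)))
    (fun σ => de p (σ (0, false)) (σ (0, true)) * ph r (σ (2, false)) (σ (2, true)))
    (fun σ => by
      simp only [sb_other 1 0 (by decide), sb_other 1 2 (by decide)])
  simp only [(sb_same 1 _).1, (sb_same 1 _).2] at h1
  have h2 := two 2 (fun σ => de r (σ (2, false)) (σ (2, true)))
    (fun σ => de p (σ (0, false)) (σ (0, true)) * de q (σ (1, false)) (σ (1, true)))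
    (fun σ => by
      simp only [sb_other 2 0 (by decide), sb_other 2 1 (by decide)])
  simp only [(sb_same 2 _).1, (sb_same 2 _).2] at h2
  have e0 : ∑ σ : Equiv.Perm J, sn σ * (ph p (σ (0, false)) (σ (0, true)) *
      (ph q (σ (1, false)) (σ (1, true)) * ph r (σ (2, false)) (σ (2, true)))) =
      2 * ∑ σ : Equiv.Perm J, sn σ * (de p (σ (0, false)) (σ (0, true)) *
      (ph q (σ (1, false)) (σ (1, true)) * ph r (σ (2, false)) (σ (2, true)))) := h0
  have e1 : ∑ σ : Equiv.Perm J, sn σ * (de p (σ (0, false)) (σ (0, true)) *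
      (ph q (σ (1, false)) (σ (1, true)) * ph r (σ (2, false)) (σ (2, true)))) =
      2 * ∑ σ : Equiv.Perm J, sn σ * (de q (σ (1, false)) (σ (1, true)) *
      (de p (σ (0, false)) (σ (0, true)) * ph r (σ (2, false)) (σ (2, true)))) := by
    rw [← h1]
    exact Finset.sum_congr rfl fun σ _ => by rw [ph]; ring
  have e2 : ∑ σ : Equiv.Perm J, sn σ * (de q (σ (1, false)) (σ (1, true)) *
      (de p (σ (0, false)) (σ (0, true)) * ph r (σ (2, false)) (σ (2, true)))) =
      2 * ∑ σ : Equiv.Perm J, sn σ * (de r (σ (2, false)) (σ (2, true)) *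
      (de p (σ (0, false)) (σ (0, true)) * de q (σ (1, false)) (σ (1, true)))) := by
    rw [← h2]
    exact Finset.sum_congr rfl fun σ _ => by rw [ph]; ring
  rw [e0, e1, e2, ep]
  have e3 : ∀ σ : Equiv.Perm J, de r (σ (2, false)) (σ (2, true)) *
      (de p (σ (0, false)) (σ (0, true)) * de q (σ (1, false)) (σ (1, true))) =
      if ⇑σ = tt p q r then 1 else 0 := by
    intro σ
    by_cases h : ⇑σ = tt p q r
    · rw [if_pos h]
      have g : ∀ x, σ x = tt p q r x := fun x => by rw [h]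
      simp only [de, g, tt]
      simp
    · rw [if_neg h]
      by_contra hne
      apply h
      simp only [de] at hne
      have k1 : σ (2, false) = r.1 ∧ σ (2, true) = r.2 := by
        by_contra h'
        exact hne (by rw [if_neg h', zero_mul])
      have k2 : σ (0, false) = p.1 ∧ σ (0, true) = p.2 := by
        by_contra h'
        exact hne (by rw [if_neg h', zero_mul, mul_zero])
      have k3 : σ (1, false) = q.1 ∧ σ (1, true) = q.2 := by
        by_contra h'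
        exact hne (by rw [if_neg h', mul_zero, mul_zero])
      funext x
      obtain ⟨b, e⟩ := x
      fin_cases b <;> cases e
      · exact k2.1
      · exact k2.2
      · exact k3.1
      · exact k3.2
      · exact k1.1
      · exact k1.2
  simp only [e3]
  ring

/-- the list of the entries -/
def L : List (ℕ × ℕ × ℕ × ℕ × ℤ) := [
    (0, 1, 2, 3, 1), (0, 1, 4, 5, 1), (0, 2, 0, 2, 3), (0, 2, 1, 3, 2),
    (0, 3, 1, 2, 1), (0, 4, 0, 4, 3), (0, 4, 1, 5, 2), (0, 5, 1, 4, 1),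
    (1, 2, 0, 3, 1), (1, 3, 0, 2, 2), (1, 3, 1, 3, 3), (1, 4, 0, 5, 1),
    (1, 5, 0, 4, 2), (1, 5, 1, 5, 3), (2, 3, 0, 1, 1), (2, 3, 4, 5, 1),
    (2, 4, 2, 4, 3), (2, 4, 3, 5, 2), (2, 5, 3, 4, 1), (3, 4, 2, 5, 1),
    (3, 5, 2, 4, 2), (3, 5, 3, 5, 3), (4, 5, 0, 1, 1), (4, 5, 2, 3, 1)]

/-- index with a given code -/
def dc (n : ℕ) : J := (Fin.ofNat 3 (n / 2), n % 2 == 1)

/-- first pair of an entry -/
def fp (a : ℕ × ℕ × ℕ × ℕ × ℤ) : J × J := (dc a.1, dc a.2.1)

/-- second pair of an entry -/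
def sp (a : ℕ × ℕ × ℕ × ℕ × ℤ) : J × J := (dc a.2.2.1, dc a.2.2.2.1)

/-- integer versions -/
def alZ (s : Fin 3) (i j : J) : ℤ :=
  if i.2 = j.2 then
    (if i.1 = s + 1 ∧ j.1 = s + 2 then 1 else if i.1 = s + 2 ∧ j.1 = s + 1 then -1 else 0) else 0

def prZ (s : Fin 3) (i j k l : J) : ℤ :=
  2 * (alZ s i j * alZ s k l) - alZ s j k * alZ s i l - alZ s k i * alZ s j l

def deZ (p : J × J) (i j : J) : ℤ := if i = p.1 ∧ j = p.2 then 1 else 0

def phZ (p : J × J) (i j : J) : ℤ := deZ p i j - deZ p j i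

theorem al_cast (s : Fin 3) (i j : J) : al s i j = ((alZ s i j : ℤ) : ℝ) := by
  unfold al alZ
  split_ifs <;> simp

theorem pr_cast (s : Fin 3) (i j k l : J) : pr s i j k l = ((prZ s i j k l : ℤ) : ℝ) := by
  unfold pr prZ
  simp only [al_cast]
  push_cast
  rfl

theorem ph_cast (p : J × J) (i j : J) : ph p i j = ((phZ p i j : ℤ) : ℝ) := by
  unfold ph phZ de deZ
  push_cast
  rfl

theorem table : ∀ i j k l : J, prZ 0 i j k l + prZ 1 i j k l + prZ 2 i j k l =
    (L.map fun a => a.2.2.2.2 * (phZ (fp a) i j * phZ (sp a) k l)).sum := by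
  decide +kernel

theorem P_eq (i j k l : J) : pr 0 i j k l + pr 1 i j k l + pr 2 i j k l =
    ∑ a : Fin L.length, ((L[(a : ℕ)].2.2.2.2 : ℤ) : ℝ) *
      (ph (fp L[(a : ℕ)]) i j * ph (sp L[(a : ℕ)]) k l) := by
  have h := table i j k l
  rw [← Fin.sum_univ_fun_getElem] at h
  rw [pr_cast, pr_cast, pr_cast]
  simp only [ph_cast]
  exact_mod_cast congrArg (fun z : ℤ => (z : ℝ)) h

/-- one term of the sum -/
def term (a b c : ℕ × ℕ × ℕ × ℕ × ℤ) : ℤ :=
  a.2.2.2.2 * b.2.2.2.2 * c.2.2.2.2 *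
    (VZ a.1 a.2.1 b.1 b.2.1 c.1 c.2.1 *
      VZ a.2.2.1 a.2.2.2.1 b.2.2.1 b.2.2.2.1 c.2.2.1 c.2.2.2.1)

theorem total : (L.map fun a => (L.map fun b => (L.map fun c => term a b c).sum).sum).sum =
    -171992678400 := by
  decide +kernel

theorem codes : ∀ a ∈ L, cd (dc a.1) = a.1 ∧ cd (dc a.2.1) = a.2.1 ∧
    cd (dc a.2.2.1) = a.2.2.1 ∧ cd (dc a.2.2.2.1) = a.2.2.2.1 := by
  decide +kernel

theorem term_eq (a b c : ℕ × ℕ × ℕ × ℕ × ℤ) (ha : a ∈ L) (hb : b ∈ L) (hc : c ∈ L) :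
    a.2.2.2.2 * b.2.2.2.2 * c.2.2.2.2 *
      (VT (tt (fp a) (fp b) (fp c)) * VT (tt (sp a) (sp b) (sp c))) = term a b c := by
  have h1 := codes a ha
  have h2 := codes b hb
  have h3 := codes c hc
  have k1 : VT (tt (fp a) (fp b) (fp c)) = VZ (cd (dc a.1)) (cd (dc a.2.1)) (cd (dc b.1))
      (cd (dc b.2.1)) (cd (dc c.1)) (cd (dc c.2.1)) := rfl
  have k2 : VT (tt (sp a) (sp b) (sp c)) = VZ (cd (dc a.2.2.1)) (cd (dc a.2.2.2.1))
      (cd (dc b.2.2.1)) (cd (dc b.2.2.2.1)) (cd (dc c.2.2.1)) (cd (dc c.2.2.2.1)) := rfl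
  rw [k1, k2, h1.1, h1.2.1, h1.2.2.1, h1.2.2.2, h2.1, h2.2.1, h2.2.2.1, h2.2.2.2,
    h3.1, h3.2.1, h3.2.2.1, h3.2.2.2]
  rfl

theorem total' : ∑ a : Fin L.length, ∑ b : Fin L.length, ∑ c : Fin L.length,
    L[(a : ℕ)].2.2.2.2 * L[(b : ℕ)].2.2.2.2 * L[(c : ℕ)].2.2.2.2 *
      (VT (tt (fp L[(a : ℕ)]) (fp L[(b : ℕ)]) (fp L[(c : ℕ)])) *
        VT (tt (sp L[(a : ℕ)]) (sp L[(b : ℕ)]) (sp L[(c : ℕ)]))) = -171992678400 := by
  rw [← total, ← Fin.sum_univ_fun_getElem]
  refine Finset.sum_congr rfl fun a _ => ?_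
  rw [← Fin.sum_univ_fun_getElem]
  refine Finset.sum_congr rfl fun b _ => ?_
  rw [← Fin.sum_univ_fun_getElem]
  refine Finset.sum_congr rfl fun c _ => ?_
  exact term_eq _ _ _ (List.getElem_mem _) (List.getElem_mem _) (List.getElem_mem _)

theorem value : gm (fun _ : Fin 3 =>
    (fun i j k l => pr 0 i j k l + pr 1 i j k l + pr 2 i j k l : T4 3)) = -9216 := by
  have h1 : ∀ σ τ : Equiv.Perm J, sn σ * sn τ * ∏ b : Fin 3,
      (pr 0 (σ (b, false)) (σ (b, true)) (τ (b, false)) (τ (b, true)) +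
        pr 1 (σ (b, false)) (σ (b, true)) (τ (b, false)) (τ (b, true)) +
        pr 2 (σ (b, false)) (σ (b, true)) (τ (b, false)) (τ (b, true))) =
      ∑ x : Fin L.length × Fin L.length × Fin L.length,
        (((L[(x.1 : ℕ)].2.2.2.2 * L[(x.2.1 : ℕ)].2.2.2.2 * L[(x.2.2 : ℕ)].2.2.2.2 : ℤ) : ℝ) *
        ((sn σ * (ph (fp L[(x.1 : ℕ)]) (σ (0, false)) (σ (0, true)) *
          (ph (fp L[(x.2.1 : ℕ)]) (σ (1, false)) (σ (1, true)) *
            ph (fp L[(x.2.2 : ℕ)]) (σ (2, false)) (σ (2, true))))) *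
        (sn τ * (ph (sp L[(x.1 : ℕ)]) (τ (0, false)) (τ (0, true)) *
          (ph (sp L[(x.2.1 : ℕ)]) (τ (1, false)) (τ (1, true)) *
            ph (sp L[(x.2.2 : ℕ)]) (τ (2, false)) (τ (2, true))))))) := by
    intro σ τ
    rw [Fin.prod_univ_three, P_eq, P_eq, P_eq, Finset.sum_mul_sum, Finset.sum_mul,
      Finset.mul_sum, Fintype.sum_prod_type]
    refine Finset.sum_congr rfl fun a _ => ?_
    rw [Finset.sum_mul, Finset.mul_sum, Fintype.sum_prod_type]
    refine Finset.sum_congr rfl fun b _ => ?_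
    rw [Finset.mul_sum, Finset.mul_sum]
    refine Finset.sum_congr rfl fun c _ => ?_
    push_cast
    ring
  have h2 : gm (fun _ : Fin 3 =>
      (fun i j k l => pr 0 i j k l + pr 1 i j k l + pr 2 i j k l : T4 3)) =
      ∑ x : Fin L.length × Fin L.length × Fin L.length,
        ((L[(x.1 : ℕ)].2.2.2.2 * L[(x.2.1 : ℕ)].2.2.2.2 * L[(x.2.2 : ℕ)].2.2.2.2 : ℤ) : ℝ) *
          ((8 * ep (tt (fp L[(x.1 : ℕ)]) (fp L[(x.2.1 : ℕ)]) (fp L[(x.2.2 : ℕ)]))) *
            (8 * ep (tt (sp L[(x.1 : ℕ)]) (sp L[(x.2.1 : ℕ)]) (sp L[(x.2.2 : ℕ)])))) := by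
    rw [gm]
    have h3 : ∀ σ : Equiv.Perm J, _ := fun σ => Finset.sum_congr (s₁ := univ) rfl
      fun τ _ => h1 σ τ
    rw [Finset.sum_congr rfl fun σ _ => h3 σ]
    rw [Finset.sum_congr rfl fun σ _ => Finset.sum_comm, Finset.sum_comm]
    refine Finset.sum_congr rfl fun x _ => ?_
    rw [← sum_ph, ← sum_ph, Finset.sum_mul_sum, Finset.mul_sum]
    refine Finset.sum_congr rfl fun σ _ => ?_
    rw [Finset.mul_sum]
  have h4 : ∀ x : Fin L.length × Fin L.length × Fin L.length,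
      ((L[(x.1 : ℕ)].2.2.2.2 * L[(x.2.1 : ℕ)].2.2.2.2 * L[(x.2.2 : ℕ)].2.2.2.2 : ℤ) : ℝ) *
          ((8 * ep (tt (fp L[(x.1 : ℕ)]) (fp L[(x.2.1 : ℕ)]) (fp L[(x.2.2 : ℕ)]))) *
            (8 * ep (tt (sp L[(x.1 : ℕ)]) (sp L[(x.2.1 : ℕ)]) (sp L[(x.2.2 : ℕ)])))) =
      64 / 34560 ^ 2 * ((L[(x.1 : ℕ)].2.2.2.2 * L[(x.2.1 : ℕ)].2.2.2.2 *
        L[(x.2.2 : ℕ)].2.2.2.2 *
      (VT (tt (fp L[(x.1 : ℕ)]) (fp L[(x.2.1 : ℕ)]) (fp L[(x.2.2 : ℕ)])) *
        VT (tt (sp L[(x.1 : ℕ)]) (sp L[(x.2.1 : ℕ)]) (sp L[(x.2.2 : ℕ)]))) : ℤ) : ℝ) := by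
    intro x
    rw [Int.cast_mul _ (VT _ * VT _), Int.cast_mul (VT _) (VT _), ← ep_eq, ← ep_eq]
    ring
  rw [h2, Finset.sum_congr rfl fun x _ => h4 x, ← Finset.mul_sum, ← Int.cast_sum,
    Fintype.sum_prod_type]
  simp only [Fintype.sum_prod_type]
  rw [total']
  norm_num

theorem ex : S_EX := by
  unfold S_EX
  rw [value]
  norm_num

end Pool.Agent.W410.HD.EX
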